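import Mathlib
import Pool.Agent.H.MP_3f635c_an.G

namespace Pool.Agent.Results.MP_3f635c_an.NotAlgebra

open MeasureTheory Metric

/-- `f` is essentially bounded on the circle and `p ↦ P₊(f p)` on analytic polynomials is the
restriction of a bounded operator of the space into itself -/
def IsSymbol {X : Type} [NormedAddCommGroup X] [NormedSpace ℂ X] (ι : X →ₗ[ℂ] (ℂ → ℂ))
    (f : UnitAddCircle → ℂ) : Prop :=
  MemLp f ⊤ AddCircle.haarAddCircle ∧ ∃ T : X →L[ℂ] X, ∀ (p : Polynomial ℂ) (x : X),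
    (∀ z ∈ ball (0 : ℂ) 1, ι x z = p.eval z) → ∀ z ∈ ball (0 : ℂ) 1,
      HasSum (fun n : ℕ => fourierCoeff (fun s => f s * p.eval (fourier 1 s)) n * z ^ n)
        (ι (T x) z)

theorem result : ∃ (X : Type) (_ : NormedAddCommGroup X) (_ : NormedSpace ℂ X)
    (_ : CompleteSpace X) (ι : X →ₗ[ℂ] (ℂ → ℂ)),
    (∀ x, DifferentiableOn ℂ (ι x) (ball 0 1)) ∧
    (∀ x, (∀ z ∈ ball (0 : ℂ) 1, ι x z = 0) → x = 0) ∧
    (∀ z ∈ ball (0 : ℂ) 1, ∃ C : ℝ, ∀ x, ‖ι x z‖ ≤ C * ‖x‖) ∧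
    (∀ (x : X) (θ : ℝ), ∃ y : X, ∀ z ∈ ball (0 : ℂ) 1,
      ι y z = ι x (Complex.exp (θ * Complex.I) * z)) ∧
    (∀ p : Polynomial ℂ, ∃ x : X, ∀ z ∈ ball (0 : ℂ) 1, ι x z = p.eval z) ∧
    Dense {x : X | ∃ p : Polynomial ℂ, ∀ z ∈ ball (0 : ℂ) 1, ι x z = p.eval z} ∧
    (∃ S B : X →L[ℂ] X, (∀ x, ∀ z ∈ ball (0 : ℂ) 1, ι (S x) z = z * ι x z) ∧
      (∀ x, ∀ z ∈ ball (0 : ℂ) 1, z * ι (B x) z = ι x z - ι x 0) ∧
      spectralRadius ℂ S = 1 ∧ spectralRadius ℂ B = 1) ∧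
    ∃ f : UnitAddCircle → ℂ, Continuous f ∧ IsSymbol ι f ∧ ¬ IsSymbol ι (f * f) := by
  open Pool.Agent.H.MP_3f635c_an in
  exact ⟨E, inferInstance, inferInstance, inferInstance, ι, ι_diff, ι_inj,
    fun z hz => ⟨_, fun x => ι_bd x hz⟩, ι_rot,
    fun p => ⟨el _ (toA_co p).1, ι_poly p rfl⟩, ι_dense, ⟨S, B, ι_S, ι_B, rad_S, rad_B⟩,
    φ, φ.continuous, ⟨memLp_top_of_bound φ.continuous.aestronglyMeasurable ‖φ‖
      (Filter.Eventually.of_forall φ.norm_coe_le_norm), sym⟩, fun h => not_sym h.2⟩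

end Pool.Agent.Results.MP_3f635c_an.NotAlgebra
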